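import Pool.Agent.Helper88.QF.Adj

/-!
# Project AUT (S00834), block A5: `Hom_Qp(T, X) = Hom_Q(M, R)^15`, naturally in `M`

`Phi : QHom Tp X ≃ₗ[k] (Fin dd → QHom M R)`; `Phi_comp`:
`Phi (η.comp (TTp γ)) i = (Phi η i).comp γ`; `f1_cp`, `f2_cp`, `f4_cp`: the components of `η` on the
`i`-th copy in terms of `Phi η i`.
-/

set_option autoImplicit false

namespace QF88

open QA70 QO97

theorem bT_cp (l : Fin 3) (i : Fin dd) (x : Q1) : bT l (cp1 i x) = cp2 i (bQ l x) :=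
  FM.pmap_single _ _ _
theorem rT_cp (i : Fin dd) (x : V) : rT (cp4 i x) = cp2 i (rQ x) := FM.pmap_single _ _ _

/-- the restriction to the `i`-th copy -/
noncomputable def resQ (η : QHom Tp X) (i : Fin dd) : QHom QQ X where
  f0 := 0
  f1 := η.f1 ∘ₗ cp1 i
  f2 := η.f2 ∘ₗ cp2 i
  f3 := 0
  f4 := η.f4 ∘ₗ cp4 i
  hb := fun l x => by
    show η.f2 (cp2 i (bQ l x)) = T.dec l (η.f1 (cp1 i x))
    rw [← bT_cp]
    exact η.hb l (cp1 i x)
  hr := fun x => by
    show η.f2 (cp2 i (rQ x)) = rX (η.f4 (cp4 i x))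
    rw [← rT_cp]
    exact η.hr (cp4 i x)
  hlam := fun _ => rfl
  hal := fun _ => rfl
  ha := fun _ _ _ => rfl
  hc := fun _ _ _ => rfl
  hu := fun _ _ => rfl

@[simp] theorem resQ_f1 (η : QHom Tp X) (i : Fin dd) (x : Q1) :
    (resQ η i).f1 x = η.f1 (cp1 i x) := rfl
@[simp] theorem resQ_f2 (η : QHom Tp X) (i : Fin dd) (x : Q2) :
    (resQ η i).f2 x = η.f2 (cp2 i x) := rfl
@[simp] theorem resQ_f4 (η : QHom Tp X) (i : Fin dd) (x : V) :
    (resQ η i).f4 x = η.f4 (cp4 i x) := rfl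

/-- homomorphisms `Tp → X` are determined by the copies -/
theorem homTp_ext {η ζ : QHom Tp X} (h1 : ∀ i x, η.f1 (cp1 i x) = ζ.f1 (cp1 i x))
    (h2 : ∀ i x, η.f2 (cp2 i x) = ζ.f2 (cp2 i x)) (h4 : ∀ i x, η.f4 (cp4 i x) = ζ.f4 (cp4 i x)) :
    η = ζ :=
  QHom.ext (FM.of_Z_eq _ _) (FM.hom_pow_ext h1) (FM.hom_pow_ext h2) (FM.to_Z_eq _ _)
    (FM.hom_pow_ext h4)

/-- gluing homomorphisms on the copies -/
noncomputable def glue (ψ : Fin dd → QHom QQ X) : QHom Tp X where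
  f0 := 0
  f1 := ∑ i, (ψ i).f1 ∘ₗ FM.proj i
  f2 := ∑ i, (ψ i).f2 ∘ₗ FM.proj i
  f3 := 0
  f4 := ∑ i, (ψ i).f4 ∘ₗ FM.proj i
  hb := fun l x => by
    show (∑ i, (ψ i).f2 ∘ₗ FM.proj i : T2 →ₗ[k] X1) (bT l x) =
      T.dec l ((∑ i, (ψ i).f1 ∘ₗ FM.proj i : T1 →ₗ[k] X1) x)
    rw [LinearMap.sum_apply, LinearMap.sum_apply, map_sum]
    exact Finset.sum_congr rfl fun i _ => (ψ i).hb l (FM.proj i x)
  hr := fun x => by
    show (∑ i, (ψ i).f2 ∘ₗ FM.proj i : T2 →ₗ[k] X1) (rT x) =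
      rX ((∑ i, (ψ i).f4 ∘ₗ FM.proj i : T4 →ₗ[k] FM.K) x)
    rw [LinearMap.sum_apply, LinearMap.sum_apply, map_sum]
    exact Finset.sum_congr rfl fun i _ => (ψ i).hr (FM.proj i x)
  hlam := fun _ => rfl
  hal := fun _ => rfl
  ha := fun _ _ _ => rfl
  hc := fun _ _ _ => rfl
  hu := fun _ _ => rfl

theorem sum_single_apply {A B : FM} (F : Fin dd → (A →ₗ[k] B)) (i : Fin dd) (x : A) :
    (∑ j, F j ∘ₗ FM.proj j : FM.pow (Fin dd) A →ₗ[k] B) (FM.single i x) = F i x := by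
  rw [LinearMap.sum_apply, Finset.sum_eq_single i]
  · show F i (FM.proj i (FM.single i x)) = F i x
    rw [FM.proj_single_same]
  · intro j _ h
    show F j (FM.proj j (FM.single i x)) = 0
    rw [FM.proj_single_ne h, map_zero]
  · intro h
    exact absurd (Finset.mem_univ _) h

theorem resQ_glue (ψ : Fin dd → QHom QQ X) (i : Fin dd) : resQ (glue ψ) i = ψ i := by
  apply QHom.ext
  · exact FM.of_Z_eq _ _
  · exact LinearMap.ext fun x => sum_single_apply (fun i => (ψ i).f1) i x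
  · exact LinearMap.ext fun x => sum_single_apply (fun i => (ψ i).f2) i x
  · exact FM.of_Z_eq _ _
  · exact LinearMap.ext fun x => sum_single_apply (fun i => (ψ i).f4) i x

theorem resQ_injective {η ζ : QHom Tp X} (h : ∀ i, resQ η i = resQ ζ i) : η = ζ :=
  homTp_ext (fun i x => LinearMap.congr_fun (congrArg QHom.f1 (h i)) x)
    (fun i x => LinearMap.congr_fun (congrArg QHom.f2 (h i)) x)
    (fun i x => LinearMap.congr_fun (congrArg QHom.f4 (h i)) x)

theorem resQ_add (η ζ : QHom Tp X) (i : Fin dd) : resQ (η + ζ) i = resQ η i + resQ ζ i :=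
  QHom.ext (FM.of_Z_eq _ _) rfl rfl (FM.of_Z_eq _ _) rfl

theorem resQ_smul (t : k) (η : QHom Tp X) (i : Fin dd) : resQ (t • η) i = t • resQ η i :=
  QHom.ext (FM.of_Z_eq _ _) rfl rfl (FM.of_Z_eq _ _) rfl

/-- `Hom(T, X) = Hom(QQ, X)^15` -/
noncomputable def copies : QHom Tp X ≃ₗ[k] (Fin dd → QHom QQ X) where
  toFun := fun η i => resQ η i
  map_add' := fun η ζ => funext fun i => resQ_add η ζ i
  map_smul' := fun t η => funext fun i => resQ_smul t η i
  invFun := glue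
  left_inv := fun η => resQ_injective fun i => resQ_glue (fun i => resQ η i) i
  right_inv := fun ψ => funext fun i => resQ_glue ψ i

/-- `J = Hom_Qp(T, X) = Hom_Q(M, R)^15 = W^15` -/
noncomputable def Phi : QHom Tp X ≃ₗ[k] (Fin dd → QHom M R) :=
  copies.trans (LinearEquiv.piCongrRight fun _ => toX.symm)

theorem toX_Phi (η : QHom Tp X) (i : Fin dd) : toX (Phi η i) = resQ η i :=
  toX.apply_symm_apply (resQ η i)

theorem Phi_eq_iff (η : QHom Tp X) (i : Fin dd) (w : QHom M R) :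
    Phi η i = w ↔ resQ η i = toXf w := by
  rw [← toX_Phi, ← toX_apply]
  exact (toX.injective.eq_iff).symm

theorem resQ_comp (η : QHom Tp X) (γ : MM) (i : Fin dd) :
    resQ (η.comp (TTp γ)) i = (resQ η i).comp (QQm γ) := by
  apply QHom.ext
  · exact FM.of_Z_eq _ _
  · exact LinearMap.ext fun x => congrArg η.f1 (t1_cp γ i x)
  · exact LinearMap.ext fun x => congrArg η.f2 (t2_cp γ i x)
  · exact FM.of_Z_eq _ _
  · exact LinearMap.ext fun x => congrArg η.f4 (t4_cp γ i x)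

/-- naturality -/
theorem Phi_comp (η : QHom Tp X) (γ : MM) (i : Fin dd) :
    Phi (η.comp (TTp γ)) i = (Phi η i).comp γ := by
  apply toX.injective
  rw [toX_comp, toX_Phi, toX_Phi, resQ_comp]

/-- the components of `η` on the copies -/
theorem f1_cp (η : QHom Tp X) (i : Fin dd) (v : V) (x : Mb.P) :
    η.f1 (cp1 i (FM.mk v x)) = FM.fst ((Phi η i).f1 v) + (tp (Phi η i)).diag x := by
  rw [← toXf_f1, ← toX_apply, toX_Phi]
  rfl

theorem f2_cp (η : QHom Tp X) (i : Fin dd) (m : M2) (c : FM.K) (x : Mb.P) :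
    η.f2 (cp2 i (Q2.mk m c x)) = FM.fst ((Phi η i).f2 m) + FM.fst ((Phi η i).f0 (vM0 c)) +
      (tp (Phi η i)).diag x := by
  rw [← toXf_f2, ← toX_apply, toX_Phi]
  rfl

theorem f4_cp (η : QHom Tp X) (i : Fin dd) (v : V) :
    η.f4 (cp4 i v) = FM.fst ((Phi η i).f4 v) := by
  rw [← toXf_f4, ← toX_apply, toX_Phi]
  rfl

end QF88
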