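import Pool.Agent.Helper88.QF.Free
import Pool.Agent.Helper70.QA.DecQ

/-!
# Project AUT (S00834), block A5: `Hom_K(QQ(M), X) = Hom_Q(M, R)`, naturally in `M`

* `tp f : QHom Mb T`, the `T`-part of `f : QHom M R`; `tp_comp`: `tp (f.comp γ) = (tp f).comp (bar γ)`.
* `toX : QHom M R ≃ₗ[k] QHom QQ X`, `toX f (v, x) = f v + diag (tp f) x` (`X`-parts);
  `toX_comp : toX (f.comp γ) = (toX f).comp (QQm γ)`, `QQm γ = (q1 γ, q2 γ, γ.f4)`.
-/

set_option autoImplicit false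

namespace QF88

open QA70 QO97

/-- the `T`-part of a homomorphism `M → R` -/
noncomputable def tp (f : QHom M R) : QHom Mb T where
  f0 := FM.snd ∘ₗ f.f0 ∘ₗ ofMb0
  f1 := FM.snd ∘ₗ f.f1
  f2 := FM.snd ∘ₗ f.f2
  f3 := f.f3
  f4 := FM.snd ∘ₗ f.f4
  hb := fun l x => congrArg (FM.snd : R2 →ₗ[k] T2) (f.hb l x)
  hr := fun x => congrArg (FM.snd : R2 →ₗ[k] T2) (f.hr x)
  hlam := fun x => congrArg (FM.snd : R1 →ₗ[k] T1) (f.hlam x)
  hal := fun x => by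
    show FM.snd (f.f0 (ofMb0 0)) = 0
    rw [map_zero, map_zero, map_zero]
  ha := f.ha
  hc := f.hc
  hu := f.hu

@[simp] theorem tp_f1 (f : QHom M R) (x : V) : (tp f).f1 x = FM.snd (f.f1 x) := rfl
@[simp] theorem tp_f2 (f : QHom M R) (x : M2) : (tp f).f2 x = FM.snd (f.f2 x) := rfl
@[simp] theorem tp_f3 (f : QHom M R) (x : M3) : (tp f).f3 x = f.f3 x := rfl
@[simp] theorem tp_f4 (f : QHom M R) (x : V) : (tp f).f4 x = FM.snd (f.f4 x) := rfl

theorem snd_alR (x : R2) : FM.snd (alR x) = 0 := rfl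
theorem fst_alR (x : R2) : FM.fst (alR x) = j2 (FM.snd x) := rfl

theorem M0_split (c : FM.K) (v : V) (m : M2) :
    (M0.mk c v m : M0) = vM0 c + lamM v + alM m := by
  rw [vM0_apply, lamM_apply, alM_apply, M0.mk_add, M0.mk_add]
  simp

/-- `f` on `M_0` -/
theorem f0_mk (f : QHom M R) (c : FM.K) (v : V) (m : M2) :
    f.f0 (M0.mk c v m) = f.f0 (vM0 c) + f.f1 v + alR (f.f2 m) := by
  rw [M0_split, map_add, map_add]
  have h1 : f.f0 (lamM v) = f.f1 v := f.hlam v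
  have h2 : f.f0 (alM m) = alR (f.f2 m) := f.hal m
  rw [h1, h2]

theorem tp_f0_toMb0 (f : QHom M R) (x : M0) : (tp f).f0 (toMb0 x) = FM.snd (f.f0 x) := by
  obtain ⟨c, v, m, rfl⟩ := M0.cases x
  show FM.snd (f.f0 (M0.mk c v 0)) = _
  rw [f0_mk, f0_mk, map_add, map_add, map_add, map_add, snd_alR, snd_alR]

theorem tp_f0_mk (f : QHom M R) (c : FM.K) (v : V) :
    (tp f).f0 (FM.mk c v) = FM.snd (f.f0 (M0.mk c v 0)) := rfl

theorem tp_comp (f : QHom M R) (γ : MM) : tp (f.comp γ) = (tp f).comp (bar γ) := by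
  ext x
  · exact (tp_f0_toMb0 f (γ.f0 (ofMb0 x))).symm
  · rfl
  · rfl
  · rfl
  · rfl

theorem tp_add (f g : QHom M R) : tp (f + g) = tp f + tp g := rfl
theorem tp_smul (t : k) (f : QHom M R) : tp (t • f) = t • tp f := rfl

/-- the homomorphism `QQ → X` attached to `f : M → R` -/
noncomputable def toXf (f : QHom M R) : QHom QQ X where
  f0 := 0
  f1 := FM.fst ∘ₗ f.f1 ∘ₗ FM.fst + (tp f).diag ∘ₗ FM.snd
  f2 := FM.fst ∘ₗ f.f2 ∘ₗ FM.fst + FM.fst ∘ₗ f.f0 ∘ₗ vM0 ∘ₗ FM.fst ∘ₗ FM.snd +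
    (tp f).diag ∘ₗ FM.snd ∘ₗ FM.snd
  f3 := 0
  f4 := FM.fst ∘ₗ f.f4
  hb := fun l x => by
    obtain ⟨v, x, rfl⟩ := Q1.cases x
    show FM.fst (f.f2 (bM l v)) + FM.fst (f.f0 (vM0 0)) + (tp f).diag (Mb.dec l x) =
      T.dec l (FM.fst (f.f1 v) + (tp f).diag x)
    have h1 : FM.fst (f.f2 (bM l v)) = T.dec l (FM.fst (f.f1 v)) :=
      congrArg (FM.fst : R2 →ₗ[k] X1) (f.hb l v)
    rw [h1, map_zero, map_zero, map_zero, add_zero, (tp f).diag_dec, map_add]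
  hr := fun x => by
    show FM.fst (f.f2 (rM x)) + FM.fst (f.f0 (vM0 0)) + (tp f).diag 0 = rX (FM.fst (f.f4 x))
    have h1 : FM.fst (f.f2 (rM x)) = rX (FM.fst (f.f4 x)) :=
      congrArg (FM.fst : R2 →ₗ[k] X1) (f.hr x)
    rw [h1, map_zero, map_zero, map_zero, map_zero, add_zero, add_zero]
  hlam := fun _ => rfl
  hal := fun _ => rfl
  ha := fun _ _ _ => rfl
  hc := fun _ _ _ => rfl
  hu := fun _ _ => rfl

theorem toXf_f1 (f : QHom M R) (v : V) (x : Mb.P) :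
    (toXf f).f1 (FM.mk v x) = FM.fst (f.f1 v) + (tp f).diag x := rfl
theorem toXf_f2 (f : QHom M R) (m : M2) (c : FM.K) (x : Mb.P) :
    (toXf f).f2 (Q2.mk m c x) =
      FM.fst (f.f2 m) + FM.fst (f.f0 (vM0 c)) + (tp f).diag x := rfl
theorem toXf_f4 (f : QHom M R) (v : V) : (toXf f).f4 v = FM.fst (f.f4 v) := rfl

/-- extensionality for homomorphisms `QQ → X` -/
theorem homQQ_ext {A : QRep} {f g : QHom QQ A} (h1 : ∀ v x, f.f1 (FM.mk v x) = g.f1 (FM.mk v x))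
    (h2 : ∀ m c x, f.f2 (Q2.mk m c x) = g.f2 (Q2.mk m c x)) (h4 : ∀ v, f.f4 v = g.f4 v) :
    f = g := by
  refine QHom.ext (FM.of_Z_eq _ _) (LinearMap.ext fun y => ?_) (LinearMap.ext fun y => ?_)
    (FM.of_Z_eq _ _) (LinearMap.ext h4)
  · obtain ⟨v, x, rfl⟩ := Q1.cases y
    exact h1 v x
  · obtain ⟨m, c, x, rfl⟩ := Q2.cases y
    exact h2 m c x

theorem toXf_add (f g : QHom M R) : toXf (f + g) = toXf f + toXf g := by
  apply homQQ_ext
  · intro v x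
    show FM.fst (f.f1 v + g.f1 v) + ((tp f).diag x + (tp g).diag x) =
      (FM.fst (f.f1 v) + (tp f).diag x) + (FM.fst (g.f1 v) + (tp g).diag x)
    rw [map_add]
    abel
  · intro m c x
    show FM.fst (f.f2 m + g.f2 m) + FM.fst (f.f0 (vM0 c) + g.f0 (vM0 c)) +
        ((tp f).diag x + (tp g).diag x) =
      (FM.fst (f.f2 m) + FM.fst (f.f0 (vM0 c)) + (tp f).diag x) +
      (FM.fst (g.f2 m) + FM.fst (g.f0 (vM0 c)) + (tp g).diag x)
    rw [map_add, map_add]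
    abel
  · intro v
    show FM.fst (f.f4 v + g.f4 v) = FM.fst (f.f4 v) + FM.fst (g.f4 v)
    rw [map_add]

theorem toXf_smul (t : k) (f : QHom M R) : toXf (t • f) = t • toXf f := by
  apply homQQ_ext
  · intro v x
    show FM.fst (t • f.f1 v) + t • (tp f).diag x = t • (FM.fst (f.f1 v) + (tp f).diag x)
    rw [map_smul, smul_add]
  · intro m c x
    show FM.fst (t • f.f2 m) + FM.fst (t • f.f0 (vM0 c)) + t • (tp f).diag x =
      t • (FM.fst (f.f2 m) + FM.fst (f.f0 (vM0 c)) + (tp f).diag x)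
    rw [map_smul, map_smul, smul_add, smul_add]
  · intro v
    show FM.fst (t • f.f4 v) = t • FM.fst (f.f4 v)
    rw [map_smul]

theorem toXf_injective : Function.Injective toXf := by
  intro f g h
  have h1 : ∀ v x, FM.fst (f.f1 v) + (tp f).diag x = FM.fst (g.f1 v) + (tp g).diag x :=
    fun v x => LinearMap.congr_fun (congrArg QHom.f1 h) (FM.mk v x)
  have h2 : ∀ m c x, FM.fst (f.f2 m) + FM.fst (f.f0 (vM0 c)) + (tp f).diag x =
      FM.fst (g.f2 m) + FM.fst (g.f0 (vM0 c)) + (tp g).diag x :=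
    fun m c x => LinearMap.congr_fun (congrArg QHom.f2 h) (Q2.mk m c x)
  have h4 : ∀ v, FM.fst (f.f4 v) = FM.fst (g.f4 v) :=
    fun v => LinearMap.congr_fun (congrArg QHom.f4 h) v
  have hd : tp f = tp g := by
    apply diag_inj
    apply LinearMap.ext
    intro x
    have := h1 0 x
    rwa [map_zero, map_zero, map_zero, map_zero, zero_add, zero_add] at this
  have e1 : ∀ v, FM.fst (f.f1 v) = FM.fst (g.f1 v) := by
    intro v
    have := h1 v 0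
    rwa [map_zero, map_zero, add_zero, add_zero] at this
  have e2 : ∀ m, FM.fst (f.f2 m) = FM.fst (g.f2 m) := by
    intro m
    have := h2 m 0 0
    simpa only [map_zero, add_zero] using this
  have e0 : ∀ c, FM.fst (f.f0 (vM0 c)) = FM.fst (g.f0 (vM0 c)) := by
    intro c
    have := h2 0 c 0
    simpa only [map_zero, add_zero, zero_add] using this
  apply homM_ext
  · intro c
    refine FM.prod_ext (e0 c) ?_
    exact LinearMap.congr_fun (congrArg QHom.f0 hd) (FM.mk c 0)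
  · intro v
    exact FM.prod_ext (e1 v) (LinearMap.congr_fun (congrArg QHom.f1 hd) v)
  · intro v
    exact FM.prod_ext (e2 _) (LinearMap.congr_fun (congrArg QHom.f2 hd) (vM2 v))
  · intro v
    exact LinearMap.congr_fun (congrArg QHom.f3 hd) (vM3 v)
  · intro v
    exact FM.prod_ext (h4 v) (LinearMap.congr_fun (congrArg QHom.f4 hd) v)

theorem bQ_zero_mk (l : Fin 3) (x : Mb.P) :
    bQ l (FM.mk 0 x) = bQ 0 (FM.mk 0 (Mb.dec l x)) := by
  rw [bQ_mk, bQ_mk, map_zero, map_zero]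
  rfl

theorem toXf_surjective : Function.Surjective toXf := by
  intro ψ
  have hψ : ∀ (l : Fin 3) (x : Mb.P),
      (ψ.f1 ∘ₗ FM.inr : Mb.P →ₗ[k] T.P) (Mb.dec l x) =
        T.dec l ((ψ.f1 ∘ₗ FM.inr : Mb.P →ₗ[k] T.P) x) := by
    intro l x
    show ψ.f1 (FM.mk 0 (Mb.dec l x)) = T.dec l (ψ.f1 (FM.mk 0 x))
    have h1 : ψ.f2 (bQ l (FM.mk 0 x)) = T.dec l (ψ.f1 (FM.mk 0 x)) := ψ.hb l (FM.mk 0 x)
    have h2 : ψ.f2 (bQ 0 (FM.mk 0 (Mb.dec l x))) = T.dec 0 (ψ.f1 (FM.mk 0 (Mb.dec l x))) :=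
      ψ.hb 0 (FM.mk 0 (Mb.dec l x))
    rw [← h1, bQ_zero_mk, h2]
    rfl
  obtain ⟨g, hg⟩ := decodeQ (A := Mb) (B := T) rfl rfl (ψ.f1 ∘ₗ FM.inr) (hψ 1) (hψ 2)
  have hg' : ∀ x, ψ.f1 (FM.mk 0 x) = g.diag x := fun x => LinearMap.congr_fun hg x
  let f : QHom M R := freeM R
    (FM.lift (ψ.f2 ∘ₗ FM.inr ∘ₗ FM.inl) (g.f0 ∘ₗ FM.inl))
    (FM.lift (ψ.f1 ∘ₗ FM.inl) g.f1)
    (FM.lift (ψ.f2 ∘ₗ FM.inl ∘ₗ vM2) (g.f2 ∘ₗ vM2))
    (g.f3 ∘ₗ vM3)
    (FM.lift ψ.f4 g.f4)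
  have f1 : ∀ v, f.f1 v = FM.mk (ψ.f1 (FM.mk v 0)) (g.f1 v) := fun v => rfl
  have f4 : ∀ v, f.f4 v = FM.mk (ψ.f4 v) (g.f4 v) := fun v => rfl
  have f0 : ∀ c, f.f0 (vM0 c) = FM.mk (ψ.f2 (Q2.mk 0 c 0)) (g.f0 (FM.mk c 0)) :=
    fun c => freeM_v0 R _ _ _ _ _ c
  have f2 : ∀ v, f.f2 (vM2 v) = FM.mk (ψ.f2 (Q2.mk (vM2 v) 0 0)) (g.f2 (vM2 v)) :=
    fun v => freeM_v2 R _ _ _ _ _ v
  have f3 : ∀ v, f.f3 (vM3 v) = g.f3 (vM3 v) := fun v => freeM_v3 R _ _ _ _ _ v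
  have htp : tp f = g := by
    apply homMb_ext
    · intro c
      show FM.snd (f.f0 (vM0 c)) = _
      rw [f0]
      rfl
    · intro v
      rw [tp_f1, f1]
      rfl
    · intro v
      rw [tp_f2, f2]
      rfl
    · intro v
      rw [tp_f3, f3]
    · intro v
      rw [tp_f4, f4]
      rfl
  have hX2 : ∀ m, FM.fst (f.f2 m) = ψ.f2 (Q2.mk m 0 0) := by
    have h : (FM.fst ∘ₗ f.f2 : M2 →ₗ[k] X1) = ψ.f2 ∘ₗ FM.inl := by
      apply M2_hom_ext
      · intro v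
        show FM.fst (f.f2 (vM2 v)) = ψ.f2 (Q2.mk (vM2 v) 0 0)
        rw [f2]
        rfl
      · intro l v
        show FM.fst (f.f2 (bM l v)) = ψ.f2 (Q2.mk (bM l v) 0 0)
        have h1 : FM.fst (f.f2 (bM l v)) = T.dec l (FM.fst (f.f1 v)) :=
          congrArg (FM.fst : R2 →ₗ[k] X1) (f.hb l v)
        have h2 : ψ.f2 (bQ l (FM.mk v 0)) = T.dec l (ψ.f1 (FM.mk v 0)) := ψ.hb l (FM.mk v 0)
        rw [bQ_mk, map_zero] at h2
        rw [h1, f1, h2]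
        rfl
      · intro v
        show FM.fst (f.f2 (rM v)) = ψ.f2 (Q2.mk (rM v) 0 0)
        have h1 : FM.fst (f.f2 (rM v)) = rX (FM.fst (f.f4 v)) :=
          congrArg (FM.fst : R2 →ₗ[k] X1) (f.hr v)
        have h2 : ψ.f2 (rQ v) = rX (ψ.f4 v) := ψ.hr v
        rw [rQ_apply] at h2
        rw [h1, f4, h2]
        rfl
    exact fun m => LinearMap.congr_fun h m
  refine ⟨f, homQQ_ext ?_ ?_ ?_⟩
  · intro v x
    rw [toXf_f1, htp, f1, FM.fst_mk, ← hg', ← map_add]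
    simp
  · intro m c x
    rw [toXf_f2, htp, hX2, f0, FM.fst_mk, ← hg']
    have h2 : ψ.f2 (bQ 0 (FM.mk 0 x)) = T.dec 0 (ψ.f1 (FM.mk 0 x)) := ψ.hb 0 (FM.mk 0 x)
    rw [bQ_mk, map_zero] at h2
    have h3 : ψ.f1 (FM.mk 0 x) = ψ.f2 (Q2.mk 0 0 x) := h2.symm
    rw [h3, ← map_add, ← map_add, Q2.mk_add, Q2.mk_add]
    simp
  · intro v
    rw [toXf_f4, f4]
    rfl

/-- `Hom_Q(M, R) = Hom_K(QQ, X)` -/
noncomputable def toX : QHom M R ≃ₗ[k] QHom QQ X :=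
  LinearEquiv.ofBijective ⟨⟨toXf, toXf_add⟩, toXf_smul⟩ ⟨toXf_injective, toXf_surjective⟩

@[simp] theorem toX_apply (f : QHom M R) : toX f = toXf f := rfl

/-- the action of `MM` on `QQ` -/
noncomputable def QQm (γ : MM) : QHom QQ QQ where
  f0 := 0
  f1 := q1 γ
  f2 := q2 γ
  f3 := 0
  f4 := γ.f4
  hb := fun l x => q2_bQ γ l x
  hr := fun x => q2_rQ γ x
  hlam := fun _ => rfl
  hal := fun _ => rfl
  ha := fun _ _ _ => rfl
  hc := fun _ _ _ => rfl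
  hu := fun _ _ => rfl

theorem diag_m2P_tp (f : QHom M R) (m : M2) : (tp f).diag (m2P m) = j2 (FM.snd (f.f2 m)) := by
  show FM.pmap (tp f).tot (FM.single 0 (Mb.in2 m)) = FM.single 0 (T.in2 (FM.snd (f.f2 m)))
  rw [FM.pmap_single, QRep.in2_apply, QHom.tot_tmk, QRep.in2_apply]
  simp only [map_zero]
  rfl

/-- on the copy of `M_0` inside `QQ_2` the homomorphism is the `X`-part of `f` -/
theorem toXf_i0 (f : QHom M R) (m : M0) : (toXf f).f2 (i0 m) = FM.fst (f.f0 m) := by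
  obtain ⟨c, v, m, rfl⟩ := M0.cases m
  rw [i0_mk, toXf_f2, f0_mk, map_add, map_add, fst_alR, diag_m2P_tp]
  have h1 : FM.fst (f.f2 (bM 0 v)) = FM.fst (f.f1 v) :=
    congrArg (FM.fst : R2 →ₗ[k] X1) (f.hb 0 v)
  rw [h1]
  abel

/-- naturality -/
theorem toXf_comp (f : QHom M R) (γ : MM) : toXf (f.comp γ) = (toXf f).comp (QQm γ) := by
  apply homQQ_ext
  · intro v x
    rw [toXf_f1, tp_comp]
    rfl
  · intro m c x
    show _ = (toXf f).f2 (q2 γ (Q2.mk m c x))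
    rw [q2_mk, map_add, map_add, toXf_i0, toXf_f2, toXf_f2, toXf_f2, tp_comp]
    simp only [map_zero, add_zero, zero_add]
    rfl
  · intro v
    rfl

theorem toX_comp (f : QHom M R) (γ : MM) : toX (f.comp γ) = (toX f).comp (QQm γ) :=
  toXf_comp f γ

end QF88
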