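import Pool.Agent.Helper70.QA.Fun
import Pool.Agent.Helper97.QO.Gen

/-!
# Project AUT (S00834), block A5: homomorphisms out of the free representations `M`, `Mb`, `Mp`

`freeM A g0 g1 g2 g3 g4 : QHom M A` has given values on the generators, `homM_ext`: determined by
these values.  The same for `Mb` (`al` of the target is zero) and `Mp` (vertex `0` of the target is
arbitrary, the component is zero).
-/

set_option autoImplicit false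

namespace QF88

open QA70 QO97

section
variable (A : QRep) (g0 : FM.K →ₗ[k] A.U0) (g1 : V →ₗ[k] A.U1) (g2 : V →ₗ[k] A.U2)
  (g3 : V →ₗ[k] A.U3) (g4 : V →ₗ[k] A.U4)

/-- component at vertex `2` -/
noncomputable def y2 : M2 →ₗ[k] A.U2 :=
  g2 ∘ₗ FM.fst + (∑ l, A.b l ∘ₗ g1 ∘ₗ FM.proj l) ∘ₗ FM.fst ∘ₗ FM.snd +
    A.r ∘ₗ g4 ∘ₗ FM.snd ∘ₗ FM.snd

theorem y2_mk (v : V) (w : FM.pow (Fin 3) V) (t : V) :
    y2 A g1 g2 g4 (M2.mk v w t) = g2 v + ∑ l, A.b l (g1 (FM.proj l w)) + A.r (g4 t) := by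
  show g2 v + (∑ l, A.b l ∘ₗ g1 ∘ₗ FM.proj l) w + A.r (g4 t) = _
  rw [LinearMap.sum_apply]
  rfl

@[simp] theorem y2_v (v : V) : y2 A g1 g2 g4 (vM2 v) = g2 v := by
  rw [vM2_apply, y2_mk]
  simp

@[simp] theorem y2_b (l : Fin 3) (v : V) : y2 A g1 g2 g4 (bM l v) = A.b l (g1 v) := by
  rw [bM_apply, y2_mk, map_zero, map_zero, map_zero, zero_add, add_zero, Finset.sum_eq_single l]
  · rw [FM.proj_single_same]
  · intro l' _ h
    rw [FM.proj_single_ne h, map_zero, map_zero]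
  · intro h
    exact absurd (Finset.mem_univ _) h

@[simp] theorem y2_r (v : V) : y2 A g1 g2 g4 (rM v) = A.r (g4 v) := by
  rw [rM_apply, y2_mk]
  simp

/-- component at vertex `3` -/
noncomputable def y3 (f2 : M2 →ₗ[k] A.U2) : M3 →ₗ[k] A.U3 :=
  g3 ∘ₗ FM.fst + (∑ ij : Fin dd × Fin 2, A.a ij.1 ij.2 ∘ₗ g1 ∘ₗ FM.proj ij) ∘ₗ FM.fst ∘ₗ FM.snd +
    (∑ ij : Fin dd × Fin 2, A.c ij.1 ij.2 ∘ₗ f2 ∘ₗ FM.proj ij) ∘ₗ FM.fst ∘ₗ FM.snd ∘ₗ FM.snd +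
    (∑ i : Fin dd, A.u i ∘ₗ g4 ∘ₗ FM.proj i) ∘ₗ FM.snd ∘ₗ FM.snd ∘ₗ FM.snd

theorem y3_mk (f2 : M2 →ₗ[k] A.U2) (v : V) (x : FM.pow (Fin dd × Fin 2) V)
    (y : FM.pow (Fin dd × Fin 2) M2) (z : FM.pow (Fin dd) V) :
    y3 A g1 g3 g4 f2 (M3.mk v x y z) = g3 v +
      ∑ ij : Fin dd × Fin 2, A.a ij.1 ij.2 (g1 (FM.proj ij x)) +
      ∑ ij : Fin dd × Fin 2, A.c ij.1 ij.2 (f2 (FM.proj ij y)) +
      ∑ i : Fin dd, A.u i (g4 (FM.proj i z)) := by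
  show g3 v + (∑ ij : Fin dd × Fin 2, A.a ij.1 ij.2 ∘ₗ g1 ∘ₗ FM.proj ij) x +
    (∑ ij : Fin dd × Fin 2, A.c ij.1 ij.2 ∘ₗ f2 ∘ₗ FM.proj ij) y +
    (∑ i : Fin dd, A.u i ∘ₗ g4 ∘ₗ FM.proj i) z = _
  rw [LinearMap.sum_apply, LinearMap.sum_apply, LinearMap.sum_apply]
  rfl

@[simp] theorem y3_v (f2 : M2 →ₗ[k] A.U2) (v : V) : y3 A g1 g3 g4 f2 (vM3 v) = g3 v := by
  rw [vM3_apply, y3_mk]
  simp

@[simp] theorem y3_a (f2 : M2 →ₗ[k] A.U2) (i : Fin dd) (j : Fin 2) (v : V) :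
    y3 A g1 g3 g4 f2 (aM i j v) = A.a i j (g1 v) := by
  rw [aM_apply, y3_mk, Finset.sum_eq_single (i, j)]
  · rw [FM.proj_single_same]
    simp
  · intro l' _ h
    rw [FM.proj_single_ne h, map_zero, map_zero]
  · intro h
    exact absurd (Finset.mem_univ _) h

@[simp] theorem y3_c (f2 : M2 →ₗ[k] A.U2) (i : Fin dd) (j : Fin 2) (v : M2) :
    y3 A g1 g3 g4 f2 (cM i j v) = A.c i j (f2 v) := by
  rw [cM_apply, y3_mk]
  have h : ∑ ij : Fin dd × Fin 2, A.c ij.1 ij.2 (f2 (FM.proj ij (FM.single (i, j) v))) =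
      A.c i j (f2 v) := by
    rw [Finset.sum_eq_single (i, j)]
    · rw [FM.proj_single_same]
    · intro l' _ h
      rw [FM.proj_single_ne h, map_zero, map_zero]
    · intro h
      exact absurd (Finset.mem_univ _) h
  rw [h]
  simp

@[simp] theorem y3_u (f2 : M2 →ₗ[k] A.U2) (i : Fin dd) (v : V) :
    y3 A g1 g3 g4 f2 (uM i v) = A.u i (g4 v) := by
  rw [uM_apply, y3_mk]
  have h : ∑ l : Fin dd, A.u l (g4 (FM.proj l (FM.single i v))) = A.u i (g4 v) := by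
    rw [Finset.sum_eq_single i]
    · rw [FM.proj_single_same]
    · intro l' _ h
      rw [FM.proj_single_ne h, map_zero, map_zero]
    · intro h
      exact absurd (Finset.mem_univ _) h
  rw [h]
  simp

/-- component at vertex `0` -/
def y0 (f2 : M2 →ₗ[k] A.U2) : M0 →ₗ[k] A.U0 :=
  g0 ∘ₗ FM.fst + A.lam ∘ₗ g1 ∘ₗ FM.fst ∘ₗ FM.snd + A.al ∘ₗ f2 ∘ₗ FM.snd ∘ₗ FM.snd

theorem y0_mk (f2 : M2 →ₗ[k] A.U2) (c : FM.K) (v : V) (m : M2) :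
    y0 A g0 g1 f2 (M0.mk c v m) = g0 c + A.lam (g1 v) + A.al (f2 m) := rfl

/-- building a homomorphism `M → A` -/
def mkM (f0 : M0 →ₗ[k] A.U0) (f1 : V →ₗ[k] A.U1) (f2 : M2 →ₗ[k] A.U2) (f3 : M3 →ₗ[k] A.U3)
    (f4 : V →ₗ[k] A.U4) (hb : ∀ l x, f2 (bM l x) = A.b l (f1 x)) (hr : ∀ x, f2 (rM x) = A.r (f4 x))
    (hlam : ∀ x, f0 (lamM x) = A.lam (f1 x)) (hal : ∀ x, f0 (alM x) = A.al (f2 x))
    (ha : ∀ i j x, f3 (aM i j x) = A.a i j (f1 x)) (hc : ∀ i j x, f3 (cM i j x) = A.c i j (f2 x))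
    (hu : ∀ i x, f3 (uM i x) = A.u i (f4 x)) : QHom M A :=
  ⟨f0, f1, f2, f3, f4, hb, hr, hlam, hal, ha, hc, hu⟩

/-- building a homomorphism `Mb → A` -/
def mkMb (f0 : Mb0 →ₗ[k] A.U0) (f1 : V →ₗ[k] A.U1) (f2 : M2 →ₗ[k] A.U2) (f3 : M3 →ₗ[k] A.U3)
    (f4 : V →ₗ[k] A.U4) (hb : ∀ l x, f2 (bM l x) = A.b l (f1 x)) (hr : ∀ x, f2 (rM x) = A.r (f4 x))
    (hlam : ∀ x, f0 (FM.mk 0 x) = A.lam (f1 x)) (hal : ∀ x, A.al (f2 x) = 0)
    (ha : ∀ i j x, f3 (aM i j x) = A.a i j (f1 x)) (hc : ∀ i j x, f3 (cM i j x) = A.c i j (f2 x))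
    (hu : ∀ i x, f3 (uM i x) = A.u i (f4 x)) : QHom Mb A :=
  ⟨f0, f1, f2, f3, f4, hb, hr, hlam, fun x => (map_zero f0).trans (hal x).symm, ha, hc, hu⟩

/-- building a homomorphism `Mp → A` -/
def mkMp (f1 : V →ₗ[k] A.U1) (f2 : M2 →ₗ[k] A.U2) (f3 : M3 →ₗ[k] A.U3)
    (f4 : V →ₗ[k] A.U4) (hb : ∀ l x, f2 (bM l x) = A.b l (f1 x)) (hr : ∀ x, f2 (rM x) = A.r (f4 x))
    (hlam : ∀ x, A.lam (f1 x) = 0) (hal : ∀ x, A.al (f2 x) = 0)
    (ha : ∀ i j x, f3 (aM i j x) = A.a i j (f1 x)) (hc : ∀ i j x, f3 (cM i j x) = A.c i j (f2 x))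
    (hu : ∀ i x, f3 (uM i x) = A.u i (f4 x)) : QHom Mp A :=
  ⟨0, f1, f2, f3, f4, hb, hr, fun x => (hlam x).symm, fun x => (hal x).symm, ha, hc, hu⟩

/-- the homomorphism `M → A` with given values on the generators -/
noncomputable def freeM : QHom M A :=
  mkM A (y0 A g0 g1 (y2 A g1 g2 g4)) g1 (y2 A g1 g2 g4) (y3 A g1 g3 g4 (y2 A g1 g2 g4)) g4
    (y2_b A g1 g2 g4) (y2_r A g1 g2 g4)
    (fun x => by
      rw [lamM_apply, y0_mk, map_zero, map_zero, map_zero, zero_add, add_zero])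
    (fun x => by
      rw [alM_apply, y0_mk, map_zero, map_zero, map_zero, zero_add, zero_add])
    (y3_a A g1 g3 g4 (y2 A g1 g2 g4)) (y3_c A g1 g3 g4 (y2 A g1 g2 g4))
    (y3_u A g1 g3 g4 (y2 A g1 g2 g4))

@[simp] theorem freeM_f1 : (freeM A g0 g1 g2 g3 g4).f1 = g1 := rfl
@[simp] theorem freeM_f4 : (freeM A g0 g1 g2 g3 g4).f4 = g4 := rfl
@[simp] theorem freeM_v2 (v : V) : (freeM A g0 g1 g2 g3 g4).f2 (vM2 v) = g2 v :=
  y2_v A g1 g2 g4 v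
@[simp] theorem freeM_v3 (v : V) : (freeM A g0 g1 g2 g3 g4).f3 (vM3 v) = g3 v :=
  y3_v A g1 g3 g4 _ v
@[simp] theorem freeM_v0 (c : FM.K) : (freeM A g0 g1 g2 g3 g4).f0 (vM0 c) = g0 c := by
  show y0 A g0 g1 _ (M0.mk c 0 0) = _
  rw [y0_mk]
  simp

/-- the homomorphism `Mp → A` with given values on the generators -/
noncomputable def freeMp (h1 : ∀ x, A.lam x = 0) (h2 : ∀ x, A.al x = 0) : QHom Mp A :=
  mkMp A g1 (y2 A g1 g2 g4) (y3 A g1 g3 g4 (y2 A g1 g2 g4)) g4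
    (y2_b A g1 g2 g4) (y2_r A g1 g2 g4) (fun _ => h1 _) (fun _ => h2 _)
    (y3_a A g1 g3 g4 (y2 A g1 g2 g4)) (y3_c A g1 g3 g4 (y2 A g1 g2 g4))
    (y3_u A g1 g3 g4 (y2 A g1 g2 g4))

/-- the homomorphism `Mb → A` with given values on the generators -/
noncomputable def freeMb (h2 : ∀ x, A.al x = 0) : QHom Mb A :=
  mkMb A (g0 ∘ₗ FM.fst + A.lam ∘ₗ g1 ∘ₗ FM.snd) g1 (y2 A g1 g2 g4)
    (y3 A g1 g3 g4 (y2 A g1 g2 g4)) g4
    (y2_b A g1 g2 g4) (y2_r A g1 g2 g4)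
    (fun x => by
      show g0 0 + A.lam (g1 x) = _
      rw [map_zero, zero_add])
    (fun x => h2 _)
    (y3_a A g1 g3 g4 (y2 A g1 g2 g4)) (y3_c A g1 g3 g4 (y2 A g1 g2 g4))
    (y3_u A g1 g3 g4 (y2 A g1 g2 g4))

@[simp] theorem freeMb_f1 (h2 : ∀ x, A.al x = 0) : (freeMb A g0 g1 g2 g3 g4 h2).f1 = g1 := rfl
@[simp] theorem freeMb_f4 (h2 : ∀ x, A.al x = 0) : (freeMb A g0 g1 g2 g3 g4 h2).f4 = g4 := rfl
@[simp] theorem freeMb_v2 (h2 : ∀ x, A.al x = 0) (v : V) :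
    (freeMb A g0 g1 g2 g3 g4 h2).f2 (vM2 v) = g2 v := y2_v A g1 g2 g4 v
@[simp] theorem freeMb_v3 (h2 : ∀ x, A.al x = 0) (v : V) :
    (freeMb A g0 g1 g2 g3 g4 h2).f3 (vM3 v) = g3 v := y3_v A g1 g3 g4 _ v
@[simp] theorem freeMb_v0 (h2 : ∀ x, A.al x = 0) (c : FM.K) :
    (freeMb A g0 g1 g2 g3 g4 h2).f0 (FM.mk c 0) = g0 c := by
  show g0 c + A.lam (g1 0) = _
  rw [map_zero, map_zero, add_zero]

@[simp] theorem freeMp_f1 (h1 : ∀ x, A.lam x = 0) (h2 : ∀ x, A.al x = 0) :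
    (freeMp A g1 g2 g3 g4 h1 h2).f1 = g1 := rfl
@[simp] theorem freeMp_f4 (h1 : ∀ x, A.lam x = 0) (h2 : ∀ x, A.al x = 0) :
    (freeMp A g1 g2 g3 g4 h1 h2).f4 = g4 := rfl
@[simp] theorem freeMp_v2 (h1 : ∀ x, A.lam x = 0) (h2 : ∀ x, A.al x = 0) (v : V) :
    (freeMp A g1 g2 g3 g4 h1 h2).f2 (vM2 v) = g2 v := y2_v A g1 g2 g4 v
@[simp] theorem freeMp_v3 (h1 : ∀ x, A.lam x = 0) (h2 : ∀ x, A.al x = 0) (v : V) :
    (freeMp A g1 g2 g3 g4 h1 h2).f3 (vM3 v) = g3 v := y3_v A g1 g3 g4 _ v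

end

variable {A : QRep}

/-- homomorphisms out of `M` are determined by their values on the generators -/
theorem homM_ext {f g : QHom M A} (h0 : ∀ c, f.f0 (vM0 c) = g.f0 (vM0 c))
    (h1 : ∀ v, f.f1 v = g.f1 v) (h2 : ∀ v, f.f2 (vM2 v) = g.f2 (vM2 v))
    (h3 : ∀ v, f.f3 (vM3 v) = g.f3 (vM3 v)) (h4 : ∀ v, f.f4 v = g.f4 v) : f = g := by
  have e2 : f.f2 = g.f2 := M2_hom_ext h2
    (fun l v => (f.hb l v).trans ((congrArg (A.b l) (h1 v)).trans (g.hb l v).symm))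
    (fun v => (f.hr v).trans ((congrArg A.r (h4 v)).trans (g.hr v).symm))
  have e0 : f.f0 = g.f0 := M0_hom_ext h0
    (fun v => (f.hlam v).trans ((congrArg A.lam (h1 v)).trans (g.hlam v).symm))
    (fun m => (f.hal m).trans ((congrArg A.al (LinearMap.congr_fun e2 m)).trans (g.hal m).symm))
  have e3 : f.f3 = g.f3 := M3_hom_ext h3
    (fun i j v => (f.ha i j v).trans ((congrArg (A.a i j) (h1 v)).trans (g.ha i j v).symm))
    (fun i j m => (f.hc i j m).trans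
      ((congrArg (A.c i j) (LinearMap.congr_fun e2 m)).trans (g.hc i j m).symm))
    (fun i v => (f.hu i v).trans ((congrArg (A.u i) (h4 v)).trans (g.hu i v).symm))
  exact QHom.ext e0 (LinearMap.ext h1) e2 e3 (LinearMap.ext h4)

/-- homomorphisms out of `Mb` are determined by their values on the generators -/
theorem homMb_ext {f g : QHom Mb A} (h0 : ∀ c, f.f0 (FM.mk c 0) = g.f0 (FM.mk c 0))
    (h1 : ∀ v, f.f1 v = g.f1 v) (h2 : ∀ v, f.f2 (vM2 v) = g.f2 (vM2 v))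
    (h3 : ∀ v, f.f3 (vM3 v) = g.f3 (vM3 v)) (h4 : ∀ v, f.f4 v = g.f4 v) : f = g := by
  have e2 : f.f2 = g.f2 := M2_hom_ext h2
    (fun l v => (f.hb l v).trans ((congrArg (A.b l) (h1 v)).trans (g.hb l v).symm))
    (fun v => (f.hr v).trans ((congrArg A.r (h4 v)).trans (g.hr v).symm))
  have e0 : f.f0 = g.f0 := FM.hom_prod_ext h0
    (fun v => (f.hlam v).trans ((congrArg A.lam (h1 v)).trans (g.hlam v).symm))
  have e3 : f.f3 = g.f3 := M3_hom_ext h3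
    (fun i j v => (f.ha i j v).trans ((congrArg (A.a i j) (h1 v)).trans (g.ha i j v).symm))
    (fun i j m => (f.hc i j m).trans
      ((congrArg (A.c i j) (LinearMap.congr_fun e2 m)).trans (g.hc i j m).symm))
    (fun i v => (f.hu i v).trans ((congrArg (A.u i) (h4 v)).trans (g.hu i v).symm))
  exact QHom.ext e0 (LinearMap.ext h1) e2 e3 (LinearMap.ext h4)

/-- homomorphisms out of `Mp` are determined by their values on the generators -/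
theorem homMp_ext {f g : QHom Mp A}
    (h1 : ∀ v, f.f1 v = g.f1 v) (h2 : ∀ v, f.f2 (vM2 v) = g.f2 (vM2 v))
    (h3 : ∀ v, f.f3 (vM3 v) = g.f3 (vM3 v)) (h4 : ∀ v, f.f4 v = g.f4 v) : f = g := by
  have e2 : f.f2 = g.f2 := M2_hom_ext h2
    (fun l v => (f.hb l v).trans ((congrArg (A.b l) (h1 v)).trans (g.hb l v).symm))
    (fun v => (f.hr v).trans ((congrArg A.r (h4 v)).trans (g.hr v).symm))
  have e3 : f.f3 = g.f3 := M3_hom_ext h3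
    (fun i j v => (f.ha i j v).trans ((congrArg (A.a i j) (h1 v)).trans (g.ha i j v).symm))
    (fun i j m => (f.hc i j m).trans
      ((congrArg (A.c i j) (LinearMap.congr_fun e2 m)).trans (g.hc i j m).symm))
    (fun i v => (f.hu i v).trans ((congrArg (A.u i) (h4 v)).trans (g.hu i v).symm))
  exact QHom.ext (FM.of_Z_eq _ _) (LinearMap.ext h1) e2 e3 (LinearMap.ext h4)

end QF88
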